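import Pool.Agent.H664.QK.Stm

set_option autoImplicit false

namespace Pool.Agent.H675.QK

open MvPolynomial Pool.Agent.H664.QK

namespace DRVL

variable (K : Subfield ℂ) {r : ℕ} (t : Fin r → ℂ)

/-- the field `K(t, e^t)` -/
noncomputable abbrev FF : IntermediateField K ℂ := IntermediateField.adjoin K (Set.range (ex t))

noncomputable def xx (i : Fin r) : FF K t :=
  ⟨t i, IntermediateField.subset_adjoin K _ ⟨Sum.inl i, rfl⟩⟩

noncomputable def yy (i : Fin r) : FF K t :=
  ⟨Complex.exp (t i), IntermediateField.subset_adjoin K _ ⟨Sum.inr i, rfl⟩⟩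

/-- evaluation at `(t, e^t)` -/
noncomputable def ph : MvPolynomial (Fin r ⊕ Fin r) K →ₐ[K] FF K t :=
  aeval (Sum.elim (xx K t) (yy K t))

theorem ph_inl (i : Fin r) : ph K t (X (Sum.inl i)) = xx K t i := by
  simp [ph]

theorem ph_inr (i : Fin r) : ph K t (X (Sum.inr i)) = yy K t i := by
  simp [ph]

theorem ph_coe (g : MvPolynomial (Fin r ⊕ Fin r) K) :
    ((ph K t g : FF K t) : ℂ) = aeval (ex t) g := by
  have h : ((FF K t).val).comp (ph K t) = aeval (ex t) := by
    apply MvPolynomial.algHom_ext
    intro i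
    cases i with
    | inl i => simp [ph, xx, ex]
    | inr i => simp [ph, yy, ex]
  exact DFunLike.congr_fun h g

/-- the row of `g` -/
noncomputable def row (g : MvPolynomial (Fin r ⊕ Fin r) K) : Fin r → FF K t :=
  fun i => ph K t (pderiv (Sum.inl i) g) + yy K t i * ph K t (pderiv (Sum.inr i) g)

/-- the derivation of `K[X, Y]` -/
noncomputable def D0 (v : Fin r → FF K t) (g : MvPolynomial (Fin r ⊕ Fin r) K) : FF K t :=
  ∑ i, row K t g i * v i

theorem D0_add (v : Fin r → FF K t) (g h : MvPolynomial (Fin r ⊕ Fin r) K) :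
    D0 K t v (g + h) = D0 K t v g + D0 K t v h := by
  unfold D0 row
  rw [← Finset.sum_add_distrib]
  refine Finset.sum_congr rfl fun i _ => ?_
  simp only [map_add]
  ring

theorem D0_mul (v : Fin r → FF K t) (g h : MvPolynomial (Fin r ⊕ Fin r) K) :
    D0 K t v (g * h) = ph K t g * D0 K t v h + ph K t h * D0 K t v g := by
  unfold D0 row
  rw [Finset.mul_sum, Finset.mul_sum, ← Finset.sum_add_distrib]
  refine Finset.sum_congr rfl fun i _ => ?_
  simp only [Derivation.leibniz, smul_eq_mul, map_add, map_mul]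
  ring

theorem D0_C (v : Fin r → FF K t) (c : K) : D0 K t v (C c) = 0 := by
  unfold D0 row
  simp

theorem D0_inl (v : Fin r → FF K t) (i : Fin r) : D0 K t v (X (Sum.inl i)) = v i := by
  unfold D0 row
  rw [Finset.sum_eq_single i]
  · simp [pderiv_X]
  · intro j _ hj
    simp [pderiv_X, hj.symm]
  · intro h
    exact absurd (Finset.mem_univ _) h

theorem D0_inr (v : Fin r → FF K t) (i : Fin r) :
    D0 K t v (X (Sum.inr i)) = yy K t i * v i := by
  unfold D0 row
  rw [Finset.sum_eq_single i]
  · simp [pderiv_X]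
  · intro j _ hj
    simp [pderiv_X, hj.symm]
  · intro h
    exact absurd (Finset.mem_univ _) h

theorem exists_frac (f : FF K t) :
    ∃ a b : MvPolynomial (Fin r ⊕ Fin r) K, ph K t b ≠ 0 ∧ f * ph K t b = ph K t a := by
  obtain ⟨a, b, h⟩ := (IntermediateField.mem_adjoin_range_iff K (ex t) (f : ℂ)).1 f.2
  rw [← ph_coe, ← ph_coe] at h
  by_cases hb : ph K t b = 0
  · refine ⟨0, 1, by simp, ?_⟩
    have hf : f = 0 := by
      apply Subtype.ext
      rw [h, hb]
      simp
    rw [hf]
    simp
  · refine ⟨a, b, hb, ?_⟩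
    have hf : f = ph K t a / ph K t b := by
      apply Subtype.ext
      rw [h]
      simp
    rw [hf, div_mul_cancel₀ _ hb]

noncomputable def nm (f : FF K t) : MvPolynomial (Fin r ⊕ Fin r) K := (exists_frac K t f).choose
noncomputable def dn (f : FF K t) : MvPolynomial (Fin r ⊕ Fin r) K :=
  (exists_frac K t f).choose_spec.choose

theorem dn_ne (f : FF K t) : ph K t (dn K t f) ≠ 0 :=
  (exists_frac K t f).choose_spec.choose_spec.1

theorem nm_dn (f : FF K t) : f * ph K t (dn K t f) = ph K t (nm K t f) :=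
  (exists_frac K t f).choose_spec.choose_spec.2

/-- the derivation of the field -/
noncomputable def D1 (v : Fin r → FF K t) (f : FF K t) : FF K t :=
  (D0 K t v (nm K t f) - f * D0 K t v (dn K t f)) / ph K t (dn K t f)

theorem D1_eq (v : Fin r → FF K t)
    (hv : ∀ g, ph K t g = 0 → D0 K t v g = 0) (f : FF K t)
    (a b : MvPolynomial (Fin r ⊕ Fin r) K) (hb : ph K t b ≠ 0) (hab : f * ph K t b = ph K t a) :
    D1 K t v f * ph K t b = D0 K t v a - f * D0 K t v b := by
  have h1 := dn_ne K t f
  have h2 := nm_dn K t f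
  have h3 : ph K t (a * dn K t f - nm K t f * b) = 0 := by
    rw [map_sub, map_mul, map_mul, ← hab, ← h2]
    ring
  have h4 := hv _ h3
  have h5 : D0 K t v (a * dn K t f) = D0 K t v (nm K t f * b) := by
    have h6 : a * dn K t f = (a * dn K t f - nm K t f * b) + nm K t f * b := by ring
    rw [h6, D0_add, h4, zero_add]
  rw [D0_mul, D0_mul, ← hab, ← h2] at h5
  unfold D1
  rw [div_mul_eq_mul_div, div_eq_iff h1]
  linear_combination (-1 : FF K t) * h5

theorem D1_ph (v : Fin r → FF K t)
    (hv : ∀ g, ph K t g = 0 → D0 K t v g = 0) (a : MvPolynomial (Fin r ⊕ Fin r) K) :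
    D1 K t v (ph K t a) = D0 K t v a := by
  have h := D1_eq K t v hv (ph K t a) a 1 (by simp) (by simp)
  have h1 : D0 K t v 1 = 0 := D0_C K t v 1
  rw [h1] at h
  simpa using h

theorem D1_add (v : Fin r → FF K t)
    (hv : ∀ g, ph K t g = 0 → D0 K t v g = 0) (f g : FF K t) :
    D1 K t v (f + g) = D1 K t v f + D1 K t v g := by
  obtain ⟨a, b, hb, hab⟩ := exists_frac K t f
  obtain ⟨c, d, hd, hcd⟩ := exists_frac K t g
  have h1 := D1_eq K t v hv f a b hb hab
  have h2 := D1_eq K t v hv g c d hd hcd
  have h3 := D1_eq K t v hv (f + g) (a * d + c * b) (b * d)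
    (by rw [map_mul]; exact mul_ne_zero hb hd)
    (by rw [map_mul, map_add, map_mul, map_mul, ← hab, ← hcd]; ring)
  rw [map_mul, D0_add, D0_mul, D0_mul, D0_mul, ← hab, ← hcd] at h3
  have h4 : ph K t b * ph K t d ≠ 0 := mul_ne_zero hb hd
  apply mul_right_cancel₀ h4
  rw [h3]
  linear_combination (-ph K t d) * h1 - ph K t b * h2

theorem D1_mul (v : Fin r → FF K t)
    (hv : ∀ g, ph K t g = 0 → D0 K t v g = 0) (f g : FF K t) :
    D1 K t v (f * g) = f * D1 K t v g + g * D1 K t v f := by
  obtain ⟨a, b, hb, hab⟩ := exists_frac K t f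
  obtain ⟨c, d, hd, hcd⟩ := exists_frac K t g
  have h1 := D1_eq K t v hv f a b hb hab
  have h2 := D1_eq K t v hv g c d hd hcd
  have h3 := D1_eq K t v hv (f * g) (a * c) (b * d)
    (by rw [map_mul]; exact mul_ne_zero hb hd)
    (by rw [map_mul, map_mul, ← hab, ← hcd]; ring)
  rw [map_mul, D0_mul, D0_mul, ← hab, ← hcd] at h3
  have h4 : ph K t b * ph K t d ≠ 0 := mul_ne_zero hb hd
  apply mul_right_cancel₀ h4
  rw [h3]
  linear_combination (-(g * ph K t d)) * h1 - f * ph K t b * h2

/-- the derivation -/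
noncomputable def DD (v : Fin r → FF K t)
    (hv : ∀ g, ph K t g = 0 → D0 K t v g = 0) : Derivation K (FF K t) (FF K t) :=
  Derivation.mk'
    { toFun := D1 K t v
      map_add' := D1_add K t v hv
      map_smul' := by
        intro c f
        have h1 : c • f = ph K t (C c) * f := by
          rw [Algebra.smul_def]
          congr 1
          exact ((ph K t).commutes c).symm
        rw [h1, D1_mul K t v hv, D1_ph K t v hv, D0_C, mul_zero, add_zero, RingHom.id_apply,
          Algebra.smul_def]
        congr 1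
        exact (ph K t).commutes c }
    (fun f g => D1_mul K t v hv f g)

theorem DD_apply (v : Fin r → FF K t)
    (hv : ∀ g, ph K t g = 0 → D0 K t v g = 0) (f : FF K t) : DD K t v hv f = D1 K t v f := rfl

end DRVL

open DRVL in
theorem drv : S_drv := by
  intro K r t
  by_cases h : Submodule.span (FF K t) {w | ∃ g, ph K t g = 0 ∧ w = row K t g} = ⊤
  · left
    obtain ⟨f, hfs, -, hli⟩ := Submodule.exists_fun_fin_finrank_span_eq (FF K t)
      {w | ∃ g, ph K t g = 0 ∧ w = row K t g}
    have hr : Module.finrank (FF K t)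
        (Submodule.span (FF K t) {w | ∃ g, ph K t g = 0 ∧ w = row K t g}) = r := by
      rw [h, finrank_top, Module.finrank_fin_fun]
    choose G hG0 hG using fun j : Fin r => hfs (Fin.cast hr.symm j)
    have hli2 : LinearIndependent (FF K t) (fun j : Fin r => row K t (G j)) := by
      have h1 : (fun j : Fin r => row K t (G j)) = f ∘ Fin.cast hr.symm := by
        funext j
        exact (hG j).symm
      rw [h1]
      exact hli.comp _ (Fin.cast_injective _)
    refine ⟨G, fun j => ?_, ?_⟩
    · rw [← ph_coe, hG0 j]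
      rfl
    · have h2 : jac K G t = (Matrix.of fun j => row K t (G j)).map
          (algebraMap (FF K t) ℂ) := by
        funext j i
        have h3 : algebraMap (FF K t) ℂ (row K t (G j) i) = ((row K t (G j) i : FF K t) : ℂ) := rfl
        rw [Matrix.map_apply, Matrix.of_apply, h3]
        unfold row
        rw [IntermediateField.coe_add, IntermediateField.coe_mul, ph_coe, ph_coe]
        rfl
      have h4 : IsUnit (Matrix.of fun j => row K t (G j)) :=
        Matrix.linearIndependent_rows_iff_isUnit.1 hli2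
      have h5 : (Matrix.of fun j => row K t (G j)).det ≠ 0 :=
        ((Matrix.isUnit_iff_isUnit_det _).1 h4).ne_zero
      have h6 : (jac K G t).det = algebraMap (FF K t) ℂ (Matrix.of fun j => row K t (G j)).det := by
        rw [h2, RingHom.map_det]
        rfl
      rw [h6]
      exact fun h7 => h5 ((map_eq_zero _).1 h7)
  · right
    obtain ⟨f, hf0, hf⟩ := Submodule.exists_le_ker_of_lt_top _ (lt_top_iff_ne_top.2 h)
    set v : Fin r → FF K t := fun i => f (Pi.single i 1) with hvdef
    have hfw : ∀ w : Fin r → FF K t, f w = ∑ i, w i * v i := by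
      intro w
      conv_lhs => rw [← Finset.univ_sum_single w]
      rw [map_sum]
      refine Finset.sum_congr rfl fun i _ => ?_
      rw [hvdef]
      have : (Pi.single i (w i) : Fin r → FF K t) = w i • Pi.single i 1 := by
        rw [← Pi.single_smul]
        simp
      rw [this, map_smul, smul_eq_mul]
    have hv : ∀ g, ph K t g = 0 → D0 K t v g = 0 := by
      intro g hg
      have h1 : row K t g ∈ Submodule.span (FF K t) {w | ∃ g, ph K t g = 0 ∧ w = row K t g} :=
        Submodule.subset_span ⟨g, hg, rfl⟩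
      have h2 := hf h1
      rw [LinearMap.mem_ker, hfw] at h2
      exact h2
    refine ⟨DD K t v hv, xx K t, yy K t, fun i => ⟨rfl, rfl⟩, fun i => ?_, ?_⟩
    · rw [DD_apply, DD_apply, ← ph_inr, ← ph_inl, D1_ph K t v hv, D1_ph K t v hv, D0_inr, D0_inl,
        ph_inr]
    · by_contra hc
      simp only [ne_eq, not_exists, not_not] at hc
      apply hf0
      refine LinearMap.ext fun w => ?_
      rw [hfw]
      refine Finset.sum_eq_zero fun i _ => ?_
      have h1 := hc i
      rw [DD_apply, ← ph_inl, D1_ph K t v hv, D0_inl] at h1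
      rw [h1, mul_zero]

end Pool.Agent.H675.QK
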