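import Pool.Agent.H664.QK.Stm

set_option autoImplicit false

namespace Pool.Agent.H675.QK

open MvPolynomial Pool.Agent.H664.QK Topology Filter

namespace NDZL

/-- the derivative of `t ↦ p(t, e^t)` -/
noncomputable def dp (K : Subfield ℂ) {n : ℕ} (p : MvPolynomial (Fin n ⊕ Fin n) K)
    (t : Fin n → ℂ) : (Fin n → ℂ) →L[ℂ] ℂ :=
  ∑ i, (aeval (ex t) (pderiv (Sum.inl i) p) +
    Complex.exp (t i) * aeval (ex t) (pderiv (Sum.inr i) p)) •
      ContinuousLinearMap.proj (R := ℂ) (φ := fun _ : Fin n => ℂ) i

theorem dp_apply (K : Subfield ℂ) {n : ℕ} (p : MvPolynomial (Fin n ⊕ Fin n) K)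
    (t v : Fin n → ℂ) : dp K p t v = ∑ i, (aeval (ex t) (pderiv (Sum.inl i) p) +
    Complex.exp (t i) * aeval (ex t) (pderiv (Sum.inr i) p)) * v i := by
  unfold dp
  simp

theorem hasStrict (K : Subfield ℂ) {n : ℕ} (p : MvPolynomial (Fin n ⊕ Fin n) K)
    (t : Fin n → ℂ) : HasStrictFDerivAt (fun t => aeval (ex t) p) (dp K p t) t := by
  induction p using MvPolynomial.induction_on with
  | C a =>
    have h : dp K (C a) t = 0 := by
      ext v
      rw [dp_apply]
      simp
    rw [h]
    have h2 : (fun t : Fin n → ℂ => aeval (ex t) (C a : MvPolynomial (Fin n ⊕ Fin n) K)) =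
        fun _ => (algebraMap K ℂ a : ℂ) := by
      funext s
      simp
    rw [h2]
    exact hasStrictFDerivAt_const _ _
  | add p q hp hq =>
    have h : dp K (p + q) t = dp K p t + dp K q t := by
      ext v
      show dp K (p + q) t v = dp K p t v + dp K q t v
      rw [dp_apply, dp_apply, dp_apply, ← Finset.sum_add_distrib]
      refine Finset.sum_congr rfl fun i _ => ?_
      simp only [map_add]
      ring
    rw [h]
    have h2 : (fun t : Fin n → ℂ => aeval (ex t) (p + q)) =
        fun t => aeval (ex t) p + aeval (ex t) q := by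
      funext s
      simp
    rw [h2]
    exact hp.add hq
  | mul_X p s hp =>
    have h2 : (fun t : Fin n → ℂ => aeval (ex t) (p * X s)) =
        fun t => aeval (ex t) p * ex t s := by
      funext s
      simp
    rw [h2]
    cases s with
    | inl k =>
      have h3 : HasStrictFDerivAt (fun t : Fin n → ℂ => ex t (Sum.inl k))
          (ContinuousLinearMap.proj (R := ℂ) (φ := fun _ : Fin n => ℂ) k) t :=
        (ContinuousLinearMap.proj (R := ℂ) (φ := fun _ : Fin n => ℂ) k).hasStrictFDerivAt
      have h4 := hp.mul h3
      have h5 : dp K (p * X (Sum.inl k)) t = aeval (ex t) p •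
          (ContinuousLinearMap.proj (R := ℂ) (φ := fun _ : Fin n => ℂ) k) +
          ex t (Sum.inl k) • dp K p t := by
        ext v
        show dp K (p * X (Sum.inl k)) t v = aeval (ex t) p * v k + ex t (Sum.inl k) * dp K p t v
        rw [dp_apply, dp_apply, Finset.mul_sum]
        have h6 : aeval (ex t) p * v k = ∑ i, (if i = k then aeval (ex t) p * v i else 0) := by
          simp
        rw [h6, ← Finset.sum_add_distrib]
        refine Finset.sum_congr rfl fun i _ => ?_
        by_cases hik : i = k
        · subst hik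
          simp [Derivation.leibniz, pderiv_X]
          ring
        · have hki : ¬ k = i := fun h => hik h.symm
          simp [Derivation.leibniz, pderiv_X, hik, hki]
          ring
      rw [h5]
      exact h4
    | inr k =>
      have h3 : HasStrictFDerivAt (fun t : Fin n → ℂ => ex t (Sum.inr k))
          (Complex.exp (t k) • ContinuousLinearMap.proj (R := ℂ) (φ := fun _ : Fin n => ℂ) k) t :=
        ((ContinuousLinearMap.proj (R := ℂ) (φ := fun _ : Fin n => ℂ) k).hasStrictFDerivAt).cexp
      have h4 := hp.mul h3
      have h5 : dp K (p * X (Sum.inr k)) t = aeval (ex t) p • (Complex.exp (t k) •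
          (ContinuousLinearMap.proj (R := ℂ) (φ := fun _ : Fin n => ℂ) k)) +
          ex t (Sum.inr k) • dp K p t := by
        ext v
        show dp K (p * X (Sum.inr k)) t v = aeval (ex t) p * (Complex.exp (t k) * v k) +
          ex t (Sum.inr k) * dp K p t v
        rw [dp_apply, dp_apply, Finset.mul_sum]
        have h6 : aeval (ex t) p * (Complex.exp (t k) * v k) =
            ∑ i, (if i = k then aeval (ex t) p * (Complex.exp (t i) * v i) else 0) := by
          simp
        rw [h6, ← Finset.sum_add_distrib]
        refine Finset.sum_congr rfl fun i _ => ?_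
        by_cases hik : i = k
        · subst hik
          simp [Derivation.leibniz, pderiv_X]
          ring
        · have hki : ¬ k = i := fun h => hik h.symm
          simp [Derivation.leibniz, pderiv_X, hik, hki]
          ring
      rw [h5]
      exact h4

theorem isolated {n : ℕ} (K : Subfield ℂ) (G : Fin n → MvPolynomial (Fin n ⊕ Fin n) K)
    (t : Fin n → ℂ) (h0 : ∀ j, aeval (ex t) (G j) = 0) (hd : (jac K G t).det ≠ 0) :
    ∀ᶠ s in 𝓝 t, (∀ j, aeval (ex s) (G j) = 0) → s = t := by
  let P : Invertible (jac K G t) := Matrix.invertibleOfIsUnitDet _ (isUnit_iff_ne_zero.2 hd)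
  let e : (Fin n → ℂ) ≃L[ℂ] (Fin n → ℂ) :=
    (Matrix.toLinearEquiv' (jac K G t) P).toContinuousLinearEquiv
  have he : ∀ v, e v = (jac K G t).mulVec v := fun v => rfl
  have hs : HasStrictFDerivAt (fun s : Fin n → ℂ => fun j => aeval (ex s) (G j))
      (e : (Fin n → ℂ) →L[ℂ] (Fin n → ℂ)) t := by
    have h1 : (e : (Fin n → ℂ) →L[ℂ] (Fin n → ℂ)) =
        ContinuousLinearMap.pi (fun j => dp K (G j) t) := by
      refine ContinuousLinearMap.ext fun v => ?_
      funext j
      show e v j = dp K (G j) t v
      rw [he, dp_apply]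
      rfl
    rw [h1]
    exact hasStrictFDerivAt_pi'.2 fun j => hasStrict K (G j) t
  filter_upwards [hs.eventually_left_inverse] with s hl hz
  have h1 : hs.localInverse _ e t (fun j => aeval (ex t) (G j)) = t :=
    hs.localInverse_apply_image
  have h2 : (fun j => aeval (ex s) (G j)) = fun j => aeval (ex t) (G j) := by
    funext j
    rw [hz j, h0 j]
  rw [← hl, h2, h1]

end NDZL

open NDZL in
theorem ndz : S_ndz := by
  intro K n G
  set S : Set (Fin n → ℂ) := {t | (∀ j, aeval (ex t) (G j) = 0) ∧ (jac K G t).det ≠ 0} with hS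
  have hd : DiscreteTopology S := by
    rw [discreteTopology_subtype_iff]
    intro t ht
    rw [← Filter.empty_mem_iff_bot]
    have h := isolated K G t ht.1 ht.2
    rw [Filter.mem_inf_principal, mem_nhdsWithin_iff_eventually]
    filter_upwards [h] with s hs hne hsS
    exact hne (hs hsS.1)
  exact Set.countable_coe_iff.1 countable_of_Lindelof_of_discrete

end Pool.Agent.H675.QK
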